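import Pool.Agent.Helper39.GA.Sparse
import Pool.Agent.Helper9.GA.Parity
import Pool.Agent.Helper73.GA.Vec

/-!
# GA-11: the parity number of the instance (helper21)
-/

set_option autoImplicit false

namespace Pool.Agent.Helper36.Alg

open Finset Pool.Agent.Helper36.PT
open Pool.Agent.Helper36.Pin (Sparse rk edges nbr ThreeConn RedRigid GR completeOn Pins pin IsEnd
  Forced Complete coloops core blocks fill Gen0 Gen Coord Line Blk At0 At lines)

/-- a line which is not of the form `(v, g, g)` has independent vectors -/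
theorem ga11_indep {K : Type} [Field K] {n : ℕ} {R : ℕ → ℕ → Prop} (t : Fin n → K)
    (c : Gen (gr n R) → K) (l : Line (gr n R)) (hl : ∀ v g', l ≠ Sum.inl (v, Sum.inl (g', g')))
    (s r : K) (h : s • PinK.vec (gr n R) t c l 0 + r • PinK.vec (gr n R) t c l 1 = 0) :
    s = 0 ∧ r = 0 := by
  rcases l with ⟨v, g⟩ | v
  · have h2 := congrFun h (Sum.inr (Sum.inr (v, 0)))
    rcases g with ⟨g, g'⟩ | ⟨X, i⟩
    · have hg : g ≠ g' := by
        intro h'
        subst h'
        exact hl v g rfl
      have h1 := congrFun h (Sum.inl g)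
      simp [PinK.vec, PinK.gvec, PinK.single, hg] at h1 h2
      exact ⟨h1, h2⟩
    · have h1 := congrFun h (Sum.inr (Sum.inl (X, i, 0)))
      simp [PinK.vec, PinK.gvec, PinK.single] at h1 h2
      exact ⟨h1, h2⟩
  · have h1 := congrFun h (Sum.inr (Sum.inr (v, 0)))
    have h2 := congrFun h (Sum.inr (Sum.inr (v, 1)))
    simp [PinK.vec, PinK.single] at h1 h2
    exact ⟨h1, h2⟩

theorem parN_eq (n : ℕ) (R : ℕ → ℕ → Prop) (U : ℕ → Prop) :
    ∃ (p : ℕ) (_ : Fact p.Prime) (t : Fin n → ZMod p) (c : Gen (gr n R) → ZMod p),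
      Function.Injective t ∧ Function.Injective c ∧
      parN n R U = 2 * PinK.parityNumber (lines (gr n R) (vset n U)) (PinK.vec (gr n R) t c) := by
  classical
  set m := (linesN n R U).length with hm
  obtain ⟨hp1, hp2⟩ := np_spec (2 + m + 2 * m ^ 2 + NG n + n)
  set p := prN n m with hpdef
  have hp3 : 2 + m + 2 * m ^ 2 + NG n + n < p := hp1
  have hpF : Fact p.Prime := ⟨hp2⟩
  have hcast : ∀ a b : ℕ, a < p → b < p → ((a : ℕ) : ZMod p) = ((b : ℕ) : ZMod p) → a = b := by
    intro a b ha hb h
    rw [ZMod.natCast_eq_natCast_iff'] at h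
    rwa [Nat.mod_eq_of_lt ha, Nat.mod_eq_of_lt hb] at h
  refine ⟨p, hpF, fun v => ((v : ℕ) : ZMod p), fun g => ((codeG n R g : ℕ) : ZMod p), ?_, ?_, ?_⟩
  · intro v w h
    have hv := v.2
    have hw := w.2
    exact Fin.ext (hcast _ _ (by omega) (by omega) h)
  · intro g g' h
    have hg := codeG_lt n R g
    have hg' := codeG_lt n R g'
    exact codeG_inj n R (hcast _ _ (by omega) (by omega) h)
  · have hmem : ∀ k, k ∈ linesN n R U ↔ k < n * NG n + n ∧ lineN n R U k := by
      intro k
      unfold linesN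
      rw [List.mem_filter, List.mem_range, dec_eq_true]
    have hnodup : (linesN n R U).Nodup := List.nodup_range.filter _
    have hex : ∀ i : Fin m, ∃ l ∈ lines (gr n R) (vset n U),
        codeL n R l = (linesN n R U).getD i 0 ∧ ∀ v g', l ≠ Sum.inl (v, Sum.inl (g', g')) := by
      intro i
      rw [List.getD_eq_getElem _ _ i.2]
      exact (lineN_iff n R U _).mp ((hmem _).mp (List.getElem_mem i.2)).2
    choose e he1 he2 he3 using hex
    have hbig : 2 + m + 2 * m ^ 2 < p := by omega
    refine solve_eq_parityNumber (lines (gr n R) (vset n U)) _ m (ND n) _ _ hbig e ?_ he1 ?_ ?_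
      (fun x => ⟨codeC n R x, codeC_lt n R x⟩) ?_ ?_ ?_ ?_ ?_
    · intro i j hij
      have h1 : (linesN n R U).getD i 0 = (linesN n R U).getD j 0 := by
        rw [← he2 i, ← he2 j, hij]
      rw [List.getD_eq_getElem _ _ i.2, List.getD_eq_getElem _ _ j.2] at h1
      exact Fin.ext ((hnodup.getElem_inj_iff).mp h1)
    · intro l hl hind
      have h1 : ∀ v g', l ≠ Sum.inl (v, Sum.inl (g', g')) := by
        rintro v g' rfl
        have h2 := hind 1 0 (by
          funext x
          simp [PinK.vec, PinK.gvec])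
        exact one_ne_zero h2.1
      have h2 : codeL n R l ∈ linesN n R U :=
        (hmem _).mpr ⟨codeL_lt n R l, (lineN_iff n R U _).mpr ⟨l, hl, rfl, h1⟩⟩
      obtain ⟨i, hi, hi'⟩ := List.getElem_of_mem h2
      refine ⟨⟨i, hi⟩, codeL_inj n R ?_⟩
      rw [he2, ← hi']
      exact List.getD_eq_getElem _ _ hi
    · intro i s r h
      exact ga11_indep _ _ (e i) (he3 i) s r h
    · intro x y hxy
      exact codeC_inj n R (congrArg Fin.val hxy)
    · intro i x
      change ((vA p n ((linesN n R U).getD i 0) (codeC n R x) : ℕ) : ZMod p) = _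
      rw [← he2 i]
      exact vA_code n R (e i) x
    · intro i x
      change ((vB n ((linesN n R U).getD i 0) (codeC n R x) : ℕ) : ZMod p) = _
      rw [← he2 i]
      exact vB_code n R (e i) x
    · intro i y hy
      change ((vA p n ((linesN n R U).getD i 0) y : ℕ) : ZMod p) = _
      rw [← he2 i]
      exact vA_zero n R (e i) y (fun x hx => hy x (Fin.ext hx))
    · intro i y hy
      change ((vB n ((linesN n R U).getD i 0) y : ℕ) : ZMod p) = _
      rw [← he2 i]
      exact vB_zero n R (e i) y (fun x hx => hy x (Fin.ext hx))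

end Pool.Agent.Helper36.Alg
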